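import Pool.Agent.U72.CMO.Bas
import Pool.Agent.W683.MO.SP

/-!
# MP_768c9c_nt (project CM): package B, host primes `≤ 2^(i/20)`, with multiplicity
-/

set_option autoImplicit false

namespace Pool.Agent.U653.CMO

open Finset Filter Topology
open scoped Classical
open Pool.Agent.W76.MO Pool.Agent.U72.CMO Pool.Agent.W683.MO

/-- the completely multiplicative function `cmv c` as a monoid homomorphism -/
noncomputable def cmvHom (c : ℕ → ℝ) : ℕ →* ℝ where
  toFun n := if n = 0 then 0 else cmv c n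
  map_one' := by simp
  map_mul' m n := by
    by_cases hm : m = 0
    · simp [hm]
    by_cases hn : n = 0
    · simp [hn]
    rw [if_neg (mul_ne_zero hm hn), if_neg hm, if_neg hn, cmv_mul c hm hn]

theorem inv_one_sub_le {x : ℝ} (h0 : 0 ≤ x) (h1 : x ≤ 1 / 2) : (1 - x)⁻¹ ≤ Real.exp (2 * x) := by
  have h2 : (1 - x)⁻¹ ≤ 1 + 2 * x := by
    rw [inv_le_iff_one_le_mul₀ (by linarith)]
    nlinarith
  have h3 := Real.add_one_le_exp (2 * x)
  linarith

/-- finite sums over numbers composed of primes in `Q` -/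
theorem sum_factored_le (Q : Finset ℕ) (hQ : ∀ q ∈ Q, q.Prime) (c : ℕ → ℝ)
    (hc : ∀ q ∈ Q, 0 ≤ c q) (hc2 : ∀ q ∈ Q, c q ≤ 1 / 2) (D : Finset ℕ)
    (hD : ∀ d ∈ D, d ∈ Nat.factoredNumbers Q) :
    ∑ d ∈ D, cmv c d ≤ Real.exp (2 * ∑ q ∈ Q, c q) := by
  set c' : ℕ → ℝ := fun p => if p ∈ Q then c p else 0 with hc'
  have hmem : ∀ d ∈ Nat.factoredNumbers Q, ∀ p : ℕ, p.Prime → p ∣ d → p ∈ Q := by
    intro d hd p hp hpd
    exact (Nat.mem_factoredNumbers'.1 hd) p hp hpd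
  have h1 : ∀ d ∈ D, cmv c d = cmvHom c' d := by
    intro d hd
    have h2 := hD d hd
    have h3 : d ≠ 0 := Nat.ne_zero_of_mem_factoredNumbers h2
    simp only [cmvHom, MonoidHom.coe_mk, OneHom.coe_mk, if_neg h3]
    apply cmv_congr
    intro p hp hpd
    rw [hc']
    simp only [if_pos (hmem d h2 p hp hpd)]
  have hc'0 : ∀ p, 0 ≤ c' p := by
    intro p
    simp only [hc']
    split_ifs with h
    · exact hc p h
    · exact le_refl _
  have hnn : ∀ n : ℕ, 0 ≤ cmvHom c' n := by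
    intro n
    simp only [cmvHom, MonoidHom.coe_mk, OneHom.coe_mk]
    split_ifs
    · exact le_refl _
    · exact cmv_nonneg _ _ (fun p _ _ => hc'0 p)
  have hval : ∀ p : ℕ, p.Prime → cmvHom c' p = c' p := by
    intro p hp
    simp only [cmvHom, MonoidHom.coe_mk, OneHom.coe_mk, if_neg hp.ne_zero]
    exact cmv_prime _ hp
  have h2 := EulerProduct.summable_and_hasSum_factoredNumbers_prod_filter_prime_geometric
    (f := cmvHom c') (by
      intro p hp
      rw [hval p hp, Real.norm_of_nonneg (hc'0 p)]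
      simp only [hc']
      split_ifs with h
      · have := hc2 p h; linarith
      · exact zero_lt_one) Q
  have h3 := h2.2
  set T : Finset (Nat.factoredNumbers Q) := D.subtype (fun d => d ∈ Nat.factoredNumbers Q) with hT
  have h4 : ∑ d ∈ T, cmvHom c' (d : ℕ) ≤ ∏ p ∈ Q with p.Prime, (1 - cmvHom c' p)⁻¹ :=
    sum_le_hasSum T (fun d _ => hnn d) h3
  have h5 : ∑ d ∈ T, cmvHom c' (d : ℕ) = ∑ d ∈ D, cmv c d := by
    rw [sum_congr rfl h1]
    rw [hT, Finset.sum_subtype_eq_sum_filter (f := fun d => cmvHom c' d)]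
    rw [filter_true_of_mem hD]
  rw [← h5]
  refine h4.trans ?_
  rw [filter_true_of_mem hQ, mul_sum, Real.exp_sum]
  apply Finset.prod_le_prod
  · intro q hq
    rw [hval q (hQ q hq)]
    simp only [hc', if_pos hq]
    have := hc2 q hq
    exact inv_nonneg.2 (by linarith)
  · intro q hq
    rw [hval q (hQ q hq)]
    simp only [hc', if_pos hq]
    exact inv_one_sub_le (hc q hq) (hc2 q hq)

theorem split_factored (Q : Finset ℕ) (n : ℕ) (hn : n ≠ 0) : ∃ d m : ℕ, n = d * m ∧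
    d ∈ Nat.factoredNumbers Q ∧ ∀ p : ℕ, p.Prime → p ∣ m → p ∉ Q := by
  induction n using Nat.recOnMul with
  | zero => exact absurd rfl hn
  | one =>
    refine ⟨1, 1, rfl, ?_, ?_⟩
    · rw [Nat.mem_factoredNumbers']
      intro p hp h
      exact absurd (Nat.dvd_one.1 h) hp.ne_one
    · intro p hp h
      exact absurd (Nat.dvd_one.1 h) hp.ne_one
  | prime q hq =>
    by_cases h : q ∈ Q
    · refine ⟨q, 1, (mul_one q).symm, ?_, ?_⟩
      · rw [Nat.mem_factoredNumbers']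
        intro p hp hpq
        rwa [(Nat.prime_dvd_prime_iff_eq hp hq).1 hpq]
      · intro p hp h
        exact absurd (Nat.dvd_one.1 h) hp.ne_one
    · refine ⟨1, q, (one_mul q).symm, ?_, ?_⟩
      · rw [Nat.mem_factoredNumbers']
        intro p hp h
        exact absurd (Nat.dvd_one.1 h) hp.ne_one
      · intro p hp hpq
        rwa [(Nat.prime_dvd_prime_iff_eq hp hq).1 hpq]
  | mul a b ha hb =>
    have ha0 : a ≠ 0 := left_ne_zero_of_mul hn
    have hb0 : b ≠ 0 := right_ne_zero_of_mul hn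
    obtain ⟨d1, m1, e1, f1, g1⟩ := ha ha0
    obtain ⟨d2, m2, e2, f2, g2⟩ := hb hb0
    refine ⟨d1 * d2, m1 * m2, by rw [e1, e2]; ring, Nat.mul_mem_factoredNumbers f1 f2, ?_⟩
    intro p hp hpm
    rcases (Nat.Prime.dvd_mul hp).1 hpm with h | h
    · exact g1 p hp h
    · exact g2 p hp h

/-- pointwise bound -/
theorem BC_point (v : ℕ → ℝ) (Q : Finset ℕ) (hv1 : ∀ p, 1 ≤ v p)
    (hvQ : ∀ p : ℕ, p.Prime → p ∉ Q → v p = 1)
    (θ Z1 Z2 K y : ℝ) (hθ : 0 ≤ θ) (hvθ : ∀ q ∈ Q, v q ≤ (q : ℝ) ^ θ)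
    (hy : ∀ q ∈ Q, (q : ℝ) ≤ y) (hZ1 : 1 ≤ Z1) (hZ2 : Z1 * y ≤ Z2) (N n : ℕ) (hn : 1 ≤ n)
    (hnN : n ≤ N) (hK : (n : ℝ) ^ θ ≤ K) :
    cmv v n ≤
      ∑ d ∈ (Icc 1 N).filter (fun d => d ∈ Nat.factoredNumbers Q ∧ (d : ℝ) ≤ Z1),
        cmv v d * (if d ∣ n then 1 else 0) +
      K * ∑ d ∈ (Icc 1 N).filter (fun d => d ∈ Nat.factoredNumbers Q ∧ Z1 < d ∧ (d : ℝ) ≤ Z2),
        (if d ∣ n then (1 : ℝ) else 0) := by
  have hK0 : 0 ≤ K := le_trans (by positivity) hK
  have hn0 : n ≠ 0 := by omega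
  have hcm1 : ∀ m, 1 ≤ cmv v m := fun m => one_le_cmv v m (fun p _ _ => hv1 p)
  set D1 := (Icc 1 N).filter (fun d => d ∈ Nat.factoredNumbers Q ∧ (d : ℝ) ≤ Z1) with hD1
  set D2 := (Icc 1 N).filter (fun d => d ∈ Nat.factoredNumbers Q ∧ Z1 < d ∧ (d : ℝ) ≤ Z2)
    with hD2
  -- the part of `n` composed of primes in `Q`
  obtain ⟨d0, m0, hdm, hd0Q, hm0Q⟩ := split_factored Q n hn0
  have hd0n : d0 ∣ n := ⟨m0, hdm⟩
  have hval : cmv v n = cmv v d0 := by
    have hd1 : d0 ≠ 0 := by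
      rintro rfl
      rw [zero_mul] at hdm
      exact hn0 hdm
    have hm1 : m0 ≠ 0 := by
      rintro rfl
      rw [mul_zero] at hdm
      exact hn0 hdm
    have h1 : cmv v m0 = 1 := by
      rw [cmv_congr v (fun _ => 1) m0 (fun p hp hpm => hvQ p hp (hm0Q p hp hpm))]
      unfold cmv
      simp
    rw [hdm, cmv_mul v hd1 hm1, h1, mul_one]
  have hd00 : d0 ≠ 0 := Nat.ne_zero_of_mem_factoredNumbers hd0Q
  have hn1 : 0 ≤ ∑ d ∈ D1, cmv v d * (if d ∣ n then 1 else 0) := by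
    apply sum_nonneg
    intro d _
    have := hcm1 d
    split_ifs
    · linarith
    · simp
  have hn2 : 0 ≤ ∑ d ∈ D2, (if d ∣ n then (1 : ℝ) else 0) := by
    apply sum_nonneg
    intro s _
    split_ifs <;> simp
  by_cases hc : (d0 : ℝ) ≤ Z1
  · have hmem : d0 ∈ D1 := by
      rw [hD1, mem_filter, mem_Icc]
      exact ⟨⟨Nat.pos_of_ne_zero hd00, (Nat.le_of_dvd (by omega) hd0n).trans hnN⟩, hd0Q, hc⟩
    have h1 := single_le_sum (f := fun d : ℕ => cmv v d * (if d ∣ n then (1 : ℝ) else 0))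
      (s := D1) (fun d _ => by
        have := hcm1 d
        split_ifs
        · linarith
        · simp) hmem
    simp only [if_pos hd0n, mul_one] at h1
    rw [hval]
    have h2 := mul_nonneg hK0 hn2
    linarith
  · push Not at hc
    have e1 : cmv v n ≤ K := by
      refine le_trans ?_ hK
      rw [← cmv_rpow _ hn0]
      apply cmv_mono
      · intro p _ _
        have := hv1 p
        linarith
      · intro p hp hpn
        by_cases hpQ : p ∈ Q
        · exact hvθ p hpQ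
        · rw [hvQ p hp hpQ]
          exact Real.one_le_rpow (by exact_mod_cast hp.one_lt.le) hθ
    -- a divisor of the right size
    obtain ⟨e, he, hmin⟩ := Finset.exists_min_image
      (d0.divisors.filter (fun e : ℕ => Z1 < (e : ℝ))) (fun e : ℕ => e)
      ⟨d0, by rw [mem_filter, Nat.mem_divisors]; exact ⟨⟨dvd_refl _, hd00⟩, hc⟩⟩
    rw [mem_filter, Nat.mem_divisors] at he
    obtain ⟨⟨hed, -⟩, heZ⟩ := he
    have heQ : e ∈ Nat.factoredNumbers Q := Nat.mem_factoredNumbers_of_dvd hd0Q hed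
    have he0 : e ≠ 0 := Nat.ne_zero_of_mem_factoredNumbers heQ
    have he1 : e ≠ 1 := by
      intro h
      rw [h] at heZ
      push_cast at heZ
      linarith
    obtain ⟨p, hp, hpe⟩ := Nat.exists_prime_and_dvd he1
    obtain ⟨m, rfl⟩ := hpe
    have hpQ : p ∈ Q := (Nat.mem_factoredNumbers'.1 heQ) p hp (dvd_mul_right _ _)
    have hm0 : m ≠ 0 := right_ne_zero_of_mul he0
    have h2 : (m : ℝ) ≤ Z1 := by
      by_contra h3
      push Not at h3
      have h4 := hmin m (by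
        rw [mem_filter, Nat.mem_divisors]
        exact ⟨⟨(dvd_mul_left _ _).trans hed, hd00⟩, h3⟩)
      have := hp.two_le
      have : 0 < m := Nat.pos_of_ne_zero hm0
      nlinarith
    have h5 : ((p * m : ℕ) : ℝ) ≤ Z2 := by
      push_cast
      have h6 := hy p hpQ
      have h7 : (0 : ℝ) ≤ p := Nat.cast_nonneg p
      have h8 : (0 : ℝ) ≤ m := Nat.cast_nonneg m
      nlinarith
    have hen : p * m ∣ n := hed.trans hd0n
    have e4 : (1 : ℝ) ≤ ∑ d ∈ D2, (if d ∣ n then (1 : ℝ) else 0) := by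
      have h9 := single_le_sum (f := fun d : ℕ => (if d ∣ n then (1 : ℝ) else 0))
        (s := D2) (fun s _ => by split_ifs <;> simp)
        (a := p * m) (by
          rw [hD2, mem_filter, mem_Icc]
          exact ⟨⟨Nat.pos_of_ne_zero he0, (Nat.le_of_dvd (by omega) hen).trans hnN⟩,
            heQ, heZ, h5⟩)
      simp only [if_pos hen] at h9
      exact h9
    have e5 : K * 1 ≤ K * _ := mul_le_mul_of_nonneg_left e4 hK0
    linarith

/-- package B -/
theorem t_B : Pool.Agent.U72.CMO.T_BC := by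
  intro E hG
  have hδ := E.hδ
  have hδt := E.hδ'
  have hτ := E.hτ
  have hτ' := E.hτ'
  obtain ⟨J0, hJ0, hJ⟩ := hG
  obtain ⟨J1, hJ1⟩ := large (E.τ / 16 - 9 * E.δ) 8 0 (by linarith)
  obtain ⟨J2, hJ2⟩ := large (1 / 5 - E.δ) 2 0 (by linarith)
  refine ⟨J0 + J1 + J2 + 9, by omega, fun j hj i hij k hk => ?_⟩
  obtain ⟨-, -, g3, -, g5, -, g7, g8, -⟩ := hJ j (by omega)
  have hjR : (9 : ℝ) ≤ j := by exact_mod_cast (by omega : 9 ≤ j)
  have hjpos : (0 : ℝ) < j := by linarith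
  have hh0 := hh_posR E.δ i
  set v : ℕ → ℝ := fun p => if (p : ℝ) ≤ (2 : ℝ) ^ (1 / 20 * (i : ℝ)) then
    1 + 2 * (p * E.gh j p) else 1 with hv
  have hv1 : ∀ p, 1 ≤ v p := by
    intro p
    simp only [hv]
    have h1 : 0 ≤ (p : ℝ) * E.gh j p := mul_nonneg (Nat.cast_nonneg p) (g3 p)
    split_ifs
    · linarith
    · exact le_refl _
  set Q : Finset ℕ := (range (2 ^ i + 1)).filter (fun q : ℕ =>
    (q : ℝ) ≤ (2 : ℝ) ^ (1 / 20 * (i : ℝ)) ∧ E.gh j q ≠ 0) with hQ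
  have hQp : ∀ q ∈ Q, q.Prime := by
    intro q hq
    rw [hQ, mem_filter] at hq
    exact (g5 q hq.2.2).1.1
  have hiR : (0 : ℝ) ≤ i := by positivity
  have hvQ0 : ∀ q ∈ Q, v q = 1 + 2 * (q * E.gh j q) := by
    intro q hq
    rw [hQ, mem_filter] at hq
    simp only [hv, if_pos hq.2.1]
  have hvQ1 : ∀ p : ℕ, p.Prime → p ∉ Q → v p = 1 := by
    intro p hp hpQ
    simp only [hv]
    split_ifs with h
    · have h6 : (p : ℝ) ≤ 2 ^ i := by
        refine h.trans ?_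
        rw [← Real.rpow_natCast]
        apply Real.rpow_le_rpow_of_exponent_le (by norm_num)
        linarith
      have h7 : p ≤ 2 ^ i := by exact_mod_cast h6
      have h8 : E.gh j p = 0 := by
        by_contra h9
        apply hpQ
        rw [hQ, mem_filter, mem_range]
        exact ⟨by omega, h, h9⟩
      rw [h8]; ring
    · rfl
  -- single primes
  have hqpos : ∀ q ∈ Q, (1 : ℝ) ≤ q := fun q hq => by exact_mod_cast (hQp q hq).one_lt.le
  have hqg : ∀ q ∈ Q, 1 ≤ (q : ℝ) * E.gh j q := by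
    intro q hq
    rw [hQ, mem_filter] at hq
    exact (g5 q hq.2.2).2.2
  have hqe : ∀ q ∈ Q, (q : ℝ)⁻¹ ≤ (q : ℝ) ^ (-1 + E.τ / 4) := by
    intro q hq
    rw [← Real.rpow_neg_one]
    apply Real.rpow_le_rpow_of_exponent_le (hqpos q hq)
    linarith
  have hq1 : ∀ q ∈ Q, (q * E.gh j q) * (q : ℝ) ^ (-1 + E.τ / 4) ≤ 1 / j := by
    intro q hq
    have := g8 {q}
    rwa [sum_singleton] at this
  set Z1 : ℝ := (2 : ℝ) ^ (1 / 4 * (i : ℝ)) with hZ1
  set Z2 : ℝ := (2 : ℝ) ^ (3 / 10 * (i : ℝ)) with hZ2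
  set K : ℝ := 2 * (2 : ℝ) ^ (9 * E.δ * i) with hK
  set N : ℕ := 2 ^ (i + 1) with hN
  set D1 := (Icc 1 N).filter (fun d => d ∈ Nat.factoredNumbers Q ∧ (d : ℝ) ≤ Z1) with hD1
  set D2 := (Icc 1 N).filter (fun d => d ∈ Nat.factoredNumbers Q ∧ Z1 < d ∧ (d : ℝ) ≤ Z2)
    with hD2
  have hZ12 : Z1 ≤ Z2 := by
    apply Real.rpow_le_rpow_of_exponent_le (by norm_num)
    linarith
  have hpt : ∀ n ∈ cell E.δ i k, cmv v n ≤
      ∑ d ∈ D1, cmv v d * (if d ∣ n then 1 else 0) +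
      K * ∑ d ∈ D2, (if d ∣ n then (1 : ℝ) else 0) := by
    intro n hn
    have hn2 := cell_sub hδ.le hk hn
    apply BC_point v Q hv1 hvQ1 (9 * E.δ) Z1 Z2 K ((2 : ℝ) ^ (1 / 20 * (i : ℝ))) (by linarith)
    · intro q hq
      rw [hvQ0 q hq]
      rw [hQ, mem_filter] at hq
      exact (g7 q hq.2.2).2
    · intro q hq
      rw [hQ, mem_filter] at hq
      exact hq.2.1
    · exact Real.one_le_rpow (by norm_num) (by positivity)
    · rw [hZ1, hZ2, ← Real.rpow_add (by norm_num)]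
      apply le_of_eq
      congr 1; ring
    · omega
    · exact hn2.2
    · have hnR : (n : ℝ) ≤ (2 : ℝ) ^ ((i : ℝ) + 1) := by
        have : (n : ℝ) ≤ 2 ^ (i + 1) := by exact_mod_cast hn2.2
        rw [← Real.rpow_natCast] at this
        push_cast at this
        exact this
      calc (n : ℝ) ^ (9 * E.δ) ≤ ((2 : ℝ) ^ ((i : ℝ) + 1)) ^ (9 * E.δ) :=
            Real.rpow_le_rpow (by positivity) hnR (by linarith)
        _ = (2 : ℝ) ^ (((i : ℝ) + 1) * (9 * E.δ)) := by rw [← Real.rpow_mul (by norm_num)]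
        _ ≤ (2 : ℝ) ^ (1 + 9 * E.δ * i) := by
            apply Real.rpow_le_rpow_of_exponent_le (by norm_num)
            nlinarith
        _ = K := by rw [hK, Real.rpow_add (by norm_num), Real.rpow_one]
  refine (sum_le_sum hpt).trans ?_
  rw [sum_add_distrib, ← mul_sum, sum_comm (s := cell E.δ i k) (t := D1),
    sum_comm (s := cell E.δ i k) (t := D2)]
  -- counting
  have hZ2h : Z2 ≤ hh E.δ i := by
    have h1 := hJ2 i (by omega)
    rw [pow_zero, mul_one] at h1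
    have h2 := lt_hh (δ := E.δ) i
    have h3 : Z2 * (2 : ℝ) ^ ((1 / 5 - E.δ) * i) = (2 : ℝ) ^ ((1 / 2 - E.δ) * i) := by
      rw [hZ2, ← Real.rpow_add (by norm_num)]
      congr 1; ring
    have h4 : (0 : ℝ) < Z2 := by positivity
    nlinarith
  have hcount : ∀ d : ℕ, 0 < d → (d : ℝ) ≤ Z2 →
      ∑ n ∈ cell E.δ i k, (if d ∣ n then (1 : ℝ) else 0) ≤ 2 * hh E.δ i / (d : ℝ) := by
    intro d hd hle
    have hposR : (0 : ℝ) < (d : ℝ) := by exact_mod_cast hd
    rw [sum_boole]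
    have h1 := card_mult (2 ^ i + k * hh E.δ i) (hh E.δ i) d hd
    have h2 : cell E.δ i k = Ioc (2 ^ i + k * hh E.δ i) (2 ^ i + k * hh E.δ i + hh E.δ i) := by
      unfold cell
      congr 1; ring
    rw [h2]
    refine h1.trans ?_
    have h3 : (1 : ℝ) ≤ hh E.δ i / (d : ℝ) := by
      rw [le_div_iff₀ hposR, one_mul]
      exact hle.trans hZ2h
    have h4 : 2 * (hh E.δ i : ℝ) / (d : ℝ) = hh E.δ i / (d : ℝ) + hh E.δ i / (d : ℝ) := by ring
    rw [h4]
    linarith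
  have hexp : ∀ x : ℝ, x ≤ 2 / 3 → Real.exp x ≤ 2 := by
    intro x hx
    calc Real.exp x ≤ Real.exp (Real.log 2) := by
          apply Real.exp_le_exp.2
          have := Real.log_two_gt_d9
          linarith
      _ = 2 := Real.exp_log (by norm_num)
  have g8Q := g8 Q
  have hj9 : (1 : ℝ) / j ≤ 1 / 9 := one_div_le_one_div_of_le (by norm_num) hjR
  -- first sum
  have hvq : ∀ q ∈ Q, v q / q ≤ 3 * ((q * E.gh j q) * (q : ℝ) ^ (-1 + E.τ / 4)) := by
    intro q hq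
    have h8 := hqpos q hq
    have h9 := hqe q hq
    have h10 := hqg q hq
    have h11 : (0 : ℝ) < (q : ℝ)⁻¹ := inv_pos.2 (by linarith)
    rw [hvQ0 q hq, div_eq_mul_inv]
    have h12 : (1 + 2 * ((q : ℝ) * E.gh j q)) * (q : ℝ)⁻¹ ≤
        (3 * ((q : ℝ) * E.gh j q)) * (q : ℝ)⁻¹ :=
      mul_le_mul_of_nonneg_right (by linarith) h11.le
    have h13 : (3 * ((q : ℝ) * E.gh j q)) * (q : ℝ)⁻¹ ≤
        (3 * ((q : ℝ) * E.gh j q)) * (q : ℝ) ^ (-1 + E.τ / 4) :=
      mul_le_mul_of_nonneg_left h9 (by linarith)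
    calc _ ≤ _ := h12
      _ ≤ _ := h13
      _ = _ := by ring
  have hS1 : ∑ d ∈ D1, ∑ n ∈ cell E.δ i k,
      cmv v d * (if d ∣ n then (1 : ℝ) else 0) ≤ 4 * hh E.δ i := by
    have h1 : ∀ d ∈ D1, ∑ n ∈ cell E.δ i k,
        cmv v d * (if d ∣ n then (1 : ℝ) else 0) ≤
        2 * hh E.δ i * cmv (fun q => v q / q) d := by
      intro d hd
      rw [hD1, mem_filter, mem_Icc] at hd
      rw [← mul_sum]
      have h2 := hcount d (by omega) (hd.2.2.trans hZ12)
      have h3 : 0 ≤ cmv v d := cmv_nonneg v d (fun p _ _ => by linarith [hv1 p])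
      refine (mul_le_mul_of_nonneg_left h2 h3).trans (le_of_eq ?_)
      have h4 : cmv (fun q => v q / q) d * d = cmv v d := by
        have h5 : (d : ℝ) = cmv (fun p => (p : ℝ)) d := (cmv_id (by omega)).symm
        rw [h5, ← cmv_mul_fun]
        apply cmv_congr
        intro p hp _
        have : (p : ℝ) ≠ 0 := by exact_mod_cast hp.ne_zero
        field_simp
      have h6 : (d : ℝ) ≠ 0 := by exact_mod_cast (by omega : d ≠ 0)
      rw [← h4]
      field_simp
    refine (sum_le_sum h1).trans ?_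
    rw [← mul_sum]
    have h7 : ∀ q ∈ Q, v q / q ≤ 1 / 2 := by
      intro q hq
      have := hvq q hq
      have := hq1 q hq
      linarith
    have h5 := sum_factored_le Q hQp (fun q => v q / q)
      (fun q hq => div_nonneg (by linarith [hv1 q]) (Nat.cast_nonneg q)) h7 D1 (by
        intro d hd
        rw [hD1, mem_filter] at hd
        exact hd.2.1)
    have h6 : ∑ q ∈ Q, v q / q ≤ 3 / j := by
      refine (sum_le_sum hvq).trans ?_
      rw [← mul_sum]
      have h11 : (3 : ℝ) / j = 3 * (1 / j) := by ring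
      rw [h11]
      exact mul_le_mul_of_nonneg_left g8Q (by norm_num)
    have h11 : (3 : ℝ) / j = 3 * (1 / j) := by ring
    have h12 : ∑ d ∈ D1, cmv (fun q => v q / q) d ≤ 2 :=
      h5.trans (hexp _ (by linarith))
    nlinarith
  -- second sum
  have hS2 : K * ∑ d ∈ D2, ∑ n ∈ cell E.δ i k, (if d ∣ n then (1 : ℝ) else 0) ≤
      hh E.δ i := by
    have h1 : ∀ d ∈ D2, ∑ n ∈ cell E.δ i k, (if d ∣ n then (1 : ℝ) else 0) ≤
        2 * hh E.δ i * (2 : ℝ) ^ (-(E.τ / 16) * (i : ℝ)) *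
          cmv (fun q => (q : ℝ) ^ (-1 + E.τ / 4)) d := by
      intro d hd
      rw [hD2, mem_filter, mem_Icc] at hd
      obtain ⟨⟨hs0, -⟩, hs1, hs2, hs3⟩ := hd
      refine (hcount d (by omega) hs3).trans ?_
      rw [cmv_rpow _ (by omega)]
      have hZpos : (0 : ℝ) < Z1 := by positivity
      have hdpos : (0 : ℝ) < d := hZpos.trans hs2
      have h2 : (d : ℝ) ^ (-1 + E.τ / 4) = (d : ℝ)⁻¹ * (d : ℝ) ^ (E.τ / 4) := by
        rw [Real.rpow_add hdpos, Real.rpow_neg_one]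
      have h3 : (2 : ℝ) ^ (E.τ / 16 * (i : ℝ)) ≤ (d : ℝ) ^ (E.τ / 4) := by
        have h4 : (2 : ℝ) ^ (E.τ / 16 * (i : ℝ)) = Z1 ^ (E.τ / 4) := by
          rw [hZ1, ← Real.rpow_mul (by norm_num)]
          congr 1; ring
        rw [h4]
        exact Real.rpow_le_rpow hZpos.le hs2.le (by linarith)
      have h5 : (2 : ℝ) ^ (-(E.τ / 16) * (i : ℝ)) * (2 : ℝ) ^ (E.τ / 16 * (i : ℝ)) = 1 := by
        rw [← Real.rpow_add (by norm_num)]
        rw [show -(E.τ / 16) * (i : ℝ) + E.τ / 16 * (i : ℝ) = 0 by ring, Real.rpow_zero]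
      rw [h2]
      have h6 : 2 * (hh E.δ i : ℝ) / d = 2 * hh E.δ i * (d : ℝ)⁻¹ *
          ((2 : ℝ) ^ (-(E.τ / 16) * (i : ℝ)) * (2 : ℝ) ^ (E.τ / 16 * (i : ℝ))) := by
        rw [h5]; ring
      rw [h6]
      have h7 : 2 * (hh E.δ i : ℝ) * (d : ℝ)⁻¹ *
          ((2 : ℝ) ^ (-(E.τ / 16) * (i : ℝ)) * (2 : ℝ) ^ (E.τ / 16 * (i : ℝ))) ≤
          2 * (hh E.δ i : ℝ) * (d : ℝ)⁻¹ *
          ((2 : ℝ) ^ (-(E.τ / 16) * (i : ℝ)) * (d : ℝ) ^ (E.τ / 4)) := by
        apply mul_le_mul_of_nonneg_left _ (by positivity)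
        exact mul_le_mul_of_nonneg_left h3 (by positivity)
      refine h7.trans (le_of_eq ?_)
      ring
    have h2 : ∑ d ∈ D2, ∑ n ∈ cell E.δ i k, (if d ∣ n then (1 : ℝ) else 0) ≤
        2 * hh E.δ i * (2 : ℝ) ^ (-(E.τ / 16) * (i : ℝ)) * 2 := by
      refine (sum_le_sum h1).trans ?_
      rw [← mul_sum]
      apply mul_le_mul_of_nonneg_left _ (by positivity)
      have h6q : ∀ q ∈ Q, (q : ℝ) ^ (-1 + E.τ / 4) ≤
          (q * E.gh j q) * (q : ℝ) ^ (-1 + E.τ / 4) := by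
        intro q hq
        have h7 := hqg q hq
        have h8 : 0 ≤ (q : ℝ) ^ (-1 + E.τ / 4) := by positivity
        nlinarith
      have h5 := sum_factored_le Q hQp (fun q => (q : ℝ) ^ (-1 + E.τ / 4))
        (fun q _ => by positivity) (by
          intro q hq
          have := h6q q hq
          have := hq1 q hq
          linarith) D2 (by
        intro d hd
        rw [hD2, mem_filter] at hd
        exact hd.2.1)
      have h6 : ∑ q ∈ Q, (q : ℝ) ^ (-1 + E.τ / 4) ≤ 1 / j :=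
        le_trans (sum_le_sum h6q) g8Q
      exact h5.trans (hexp _ (by linarith))
    have hbig := hJ1 i (by omega)
    rw [pow_zero, mul_one] at hbig
    have h3 : (2 : ℝ) ^ (9 * E.δ * i) * (2 : ℝ) ^ ((E.τ / 16 - 9 * E.δ) * i) *
        (2 : ℝ) ^ (-(E.τ / 16) * (i : ℝ)) = 1 := by
      rw [← Real.rpow_add (by norm_num), ← Real.rpow_add (by norm_num)]
      rw [show 9 * E.δ * i + (E.τ / 16 - 9 * E.δ) * i + -(E.τ / 16) * (i : ℝ) = 0 by ring,
        Real.rpow_zero]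
    have hKpos : 0 ≤ K := by positivity
    refine (mul_le_mul_of_nonneg_left h2 hKpos).trans ?_
    rw [hK]
    have h4 : 2 * (2 : ℝ) ^ (9 * E.δ * i) * (2 * hh E.δ i * (2 : ℝ) ^ (-(E.τ / 16) * (i : ℝ)) * 2)
        = hh E.δ i * ((2 : ℝ) ^ (9 * E.δ * i) * 8 * (2 : ℝ) ^ (-(E.τ / 16) * (i : ℝ))) := by ring
    rw [h4]
    have h5 : (2 : ℝ) ^ (9 * E.δ * i) * 8 * (2 : ℝ) ^ (-(E.τ / 16) * (i : ℝ)) ≤ 1 := by
      rw [← h3]
      apply mul_le_mul_of_nonneg_right _ (by positivity)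
      exact mul_le_mul_of_nonneg_left hbig (by positivity)
    nlinarith
  linarith

end Pool.Agent.U653.CMO
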